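import Pool.Agent.H69.KZ.Stm

/-! Crew KZ: parts EVL, UPB, MON, SYL. -/

set_option autoImplicit false

namespace KZ

theorem EVL_proved (hBAS : S_BAS) : S_EVL := by
  intro r n y hr
  induction n with
  | zero => simp [c]
  | succ n ih =>
    obtain ⟨-, hneg, hbig, -, -⟩ := hBAS r n hr
    have key : ∀ j ∈ Finset.range r,
        ∑ m ∈ Finset.range ((n + 1) * (r - 1) + 1), c r n ((m : ℤ) - (j : ℤ)) * y ^ m =
          y ^ j * P r y ^ n := by
      intro j hj
      have hj' : j ≤ r - 1 := by
        have := Finset.mem_range.1 hj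
        omega
      have e1 : (n + 1) * (r - 1) + 1 = j + ((r - 1 - j) + (n * (r - 1) + 1)) := by
        have : (n + 1) * (r - 1) = n * (r - 1) + (r - 1) := by ring
        omega
      rw [e1, Finset.sum_range_add]
      have z1 : ∑ m ∈ Finset.range j, c r n ((m : ℤ) - (j : ℤ)) * y ^ m = 0 := by
        refine Finset.sum_eq_zero fun m hm => ?_
        have := Finset.mem_range.1 hm
        rw [hneg _ (by omega), zero_mul]
      rw [z1, zero_add]
      have e2 : (r - 1 - j) + (n * (r - 1) + 1) = (n * (r - 1) + 1) + (r - 1 - j) := by omega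
      rw [e2, Finset.sum_range_add]
      have z2 : ∑ m ∈ Finset.range (r - 1 - j),
          c r n (((j + (n * (r - 1) + 1 + m) : ℕ) : ℤ) - (j : ℤ)) *
            y ^ (j + (n * (r - 1) + 1 + m)) = 0 := by
        refine Finset.sum_eq_zero fun m hm => ?_
        have h1 : (n : ℤ) * ((r : ℤ) - 1) < ((j + (n * (r - 1) + 1 + m) : ℕ) : ℤ) - (j : ℤ) := by
          push_cast [Nat.cast_sub hr]
          linarith
        rw [hbig _ h1, zero_mul]
      rw [z2, add_zero, ← ih, Finset.mul_sum]
      refine Finset.sum_congr rfl fun m _ => ?_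
      have e3 : (((j + m : ℕ) : ℤ) - (j : ℤ)) = (m : ℤ) := by push_cast; ring
      rw [e3, pow_add]
      ring
    have h1 : ∀ m ∈ Finset.range ((n + 1) * (r - 1) + 1), c r (n + 1) (m : ℤ) * y ^ m =
        ∑ j ∈ Finset.range r, c r n ((m : ℤ) - (j : ℤ)) * y ^ m := by
      intro m _
      rw [← Finset.sum_mul]
      rfl
    rw [Finset.sum_congr rfl h1, Finset.sum_comm, Finset.sum_congr rfl key, ← Finset.sum_mul,
      pow_succ, mul_comm]
    rfl

theorem UPB_proved (hBAS : S_BAS) (hEVL : S_EVL) : S_UPB := by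
  intro r n m x hr hx
  obtain ⟨hnn, hneg, hbig, -, -⟩ := hBAS r n hr
  have hP : 0 ≤ P r x ^ n := by
    unfold P
    positivity
  rcases lt_or_ge m 0 with h0 | h0
  · rw [hneg m h0, zero_mul]
    exact hP
  · rcases lt_or_ge ((n : ℤ) * (r - 1)) m with h1 | h1
    · rw [hbig m h1, zero_mul]
      exact hP
    · obtain ⟨M, rfl⟩ := Int.eq_ofNat_of_zero_le h0
      rw [zpow_natCast, ← hEVL r n x hr]
      have hM : M ∈ Finset.range (n * (r - 1) + 1) := by
        rw [Finset.mem_range]
        have h2 : ((n * (r - 1) : ℕ) : ℤ) = (n : ℤ) * ((r : ℤ) - 1) := by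
          push_cast [Nat.cast_sub hr]
          ring
        rw [← h2] at h1
        have h3 : M ≤ n * (r - 1) := by exact_mod_cast h1
        omega
      exact Finset.single_le_sum (f := fun m : ℕ => c r n (m : ℤ) * x ^ m)
        (fun i _ => mul_nonneg (hnn _) (pow_nonneg hx.le _)) hM

theorem MON_proved (hBAS : S_BAS) (hTP2 : S_TP2) : S_MON := by
  intro r n i j hr hij hN
  obtain ⟨hnn, hneg, -, -, hsym⟩ := hBAS r n hr
  set N : ℤ := (n : ℤ) * (r - 1) with hNdef
  have h1 : c r n i * c r n (N - i) ≤ c r n j * c r n (N - j) := by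
    rcases le_total j (N - j) with h | h
    · obtain ⟨s, hs⟩ := Int.eq_ofNat_of_zero_le (show 0 ≤ j - i by omega)
      have h2 := hTP2 r n j (N - j) s h
      have e1 : j - (s : ℤ) = i := by omega
      have e2 : N - j + (s : ℤ) = N - i := by omega
      rwa [e1, e2] at h2
    · obtain ⟨s, hs⟩ := Int.eq_ofNat_of_zero_le (show 0 ≤ N - j - i by omega)
      have h2 := hTP2 r n (N - j) j s h
      have e1 : N - j - (s : ℤ) = i := by omega
      have e2 : j + (s : ℤ) = N - i := by omega
      rw [e1, e2] at h2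
      linarith
  rw [hsym i, hsym j] at h1
  have h3 := hnn i
  have h4 := hnn j
  nlinarith [abs_le_of_sq_le_sq' (show c r n i ^ 2 ≤ c r n j ^ 2 by nlinarith) h4]

theorem SYL_proved : S_SYL := by
  intro n k t hk
  unfold L
  have hsum : ∀ x : Fin n → Fin (t + 1), ∑ i, ((Fin.rev (x i) : Fin (t + 1)) : ℕ) +
      ∑ i, (x i : ℕ) = n * t := by
    intro x
    rw [← Finset.sum_add_distrib]
    have h1 : ∀ i ∈ (Finset.univ : Finset (Fin n)),
        ((Fin.rev (x i) : Fin (t + 1)) : ℕ) + (x i : ℕ) = t := by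
      intro i _
      rw [Fin.val_rev]
      have := (x i).is_lt
      omega
    rw [Finset.sum_congr rfl h1, Finset.sum_const, Finset.card_univ, Fintype.card_fin,
      smul_eq_mul]
  have hnk : (n - k) * t + k * t = n * t := by
    rw [← add_mul]
    congr 1
    omega
  refine Finset.card_nbij' (fun x i => Fin.rev (x i)) (fun x i => Fin.rev (x i)) ?_ ?_ ?_ ?_
  · intro x hx
    simp only [Finset.coe_filter, Finset.mem_univ, true_and, Set.mem_ofPred_eq] at hx ⊢
    have := hsum x
    omega
  · intro x hx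
    simp only [Finset.coe_filter, Finset.mem_univ, true_and, Set.mem_ofPred_eq] at hx ⊢
    have := hsum x
    omega
  · intro x _
    funext i
    exact Fin.rev_rev _
  · intro x _
    funext i
    exact Fin.rev_rev _

end KZ
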